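import Pool.Agent.Lib.MP_c84763_mp.U.FinalDraft

/-!
Eigenvalue sums of semiclassical Schroedinger operators with complex potentials: universal
counterexamples are dense.
-/

set_option autoImplicit false

namespace Pool.Agent.Results.MP_c84763_mp.DenseUniversal

open Pool.Agent.Lib.MP_c84763_mp.U MeasureTheory Filter Topology
open scoped ENNReal

/-- Let `V0 : ℝ^d → ℂ` be bounded, `U` a nonempty open set, `ε > 0`. There is `V`, equal to `V0` off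
`U`, with `V - V0` compactly supported and in `L^p` for all `p < ∞`, of `L^p` norm at most `ε` for
`1 ≤ p ≤ p1`, such that as `h → 0+`, for all `γ > 0`:
`h^d ∑_j |E_j|^(-d/2) δ(E_j)^(γ+d/2) f(log(|E_j|/δ(E_j))) → ∞` for every nonincreasing `f ≥ 0` on
`[0,∞)` with `∫ f = ∞`, and `h^d S_{γ,σ}(V,h) → ∞` for every `0 ≤ σ ≤ d/2`. Here the `E_j` are the
eigenvalues of the m-sectorial operator `-h² Δ + V`, repeated according to algebraic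
multiplicity. -/
theorem result {d : ℕ} (hd : 1 ≤ d) (V0 : Sp d → ℂ) (R : ℝ) (mV0 : Measurable V0)
    (bV0 : ∀ x, ‖V0 x‖ ≤ R) (U : Set (Sp d)) (hU : IsOpen U) (hne : U.Nonempty)
    (ε : ℝ) (hε : 0 < ε) (p1 : ℝ) :
    ∃ V : Sp d → ℂ, Measurable V ∧ (∀ x, x ∉ U → V x = V0 x) ∧
      HasCompactSupport (fun x => V x - V0 x) ∧
      (∀ x, -R ≤ (V x).re ∧ |(V x).im| ≤ R + 1) ∧
      (∀ p : ℝ≥0∞, p ≠ ⊤ → MemLp (fun x => V x - V0 x) p) ∧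
      (∀ p : ℝ≥0∞, 1 ≤ p → p ≤ ENNReal.ofReal p1 →
        eLpNorm (fun x => V x - V0 x) p ≤ ENNReal.ofReal ε) ∧
      (∀ γ : ℝ, 0 < γ → ∀ f : ℝ → ℝ, AntitoneOn f (Set.Ici 0) → (∀ t, 0 ≤ t → 0 ≤ f t) →
        ∫⁻ t in Set.Ici (0 : ℝ), ENNReal.ofReal (f t) = ⊤ →
        Tendsto (fun h : ℝ => ENNReal.ofReal (h ^ d) * Sf V h γ f) (𝓝[>] 0) (𝓝 ⊤)) ∧
      (∀ γ : ℝ, 0 < γ → ∀ σ : ℝ, 0 ≤ σ → σ ≤ d / 2 →
        Tendsto (fun h : ℝ => ENNReal.ofReal (h ^ d) * S V h γ σ) (𝓝[>] 0) (𝓝 ⊤)) :=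
  final hd V0 R mV0 bV0 U hU hne ε hε p1

end Pool.Agent.Results.MP_c84763_mp.DenseUniversal
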