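import Mathlib
import Pool.Agent.Lib.MP_c84763_mp.Main

/-! # One potential for which the eigenvalue sum is infinite for every `ħ` -/

open Filter Topology MeasureTheory Pool.Agent.Lib.MP_c84763_mp

namespace Pool.Agent.Results.MP_c84763_mp.InfiniteSums

/-- For all `d ≥ 2` and `γ > 0` there is one continuous `V : ℝ^d → ℂ`, tending to `0` at infinity,
in `L^(γ + d/2)`, with nonnegative real and imaginary parts, such that for every `ħ > 0` and every
`σ ≤ d/2` the sum of `|E|^(-σ) dist(E,[0,∞))^(γ+σ)` over the eigenvalues of `-ħ²Δ + V` outside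
`[0,∞)` (geometric multiplicities) is infinite. -/
theorem result (d : ℕ) (hd : 2 ≤ d) (γ : ℝ) (hγ : 0 < γ) :
    ∃ V : Sp d → ℂ, Continuous V ∧ Tendsto V (cocompact (Sp d)) (𝓝 0) ∧
      MemLp V (ENNReal.ofReal (γ + (d : ℝ) / 2)) volume ∧
      (∀ x, 0 ≤ (V x).re ∧ 0 ≤ (V x).im) ∧
      ∀ hbar : ℝ, 0 < hbar → ∀ σ : ℝ, σ ≤ (d : ℝ) / 2 → eigenSum V hbar γ σ = ⊤ :=
  main d hd γ hγ

end Pool.Agent.Results.MP_c84763_mp.InfiniteSums
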